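import Pool.Agent.L7h89.NH.Stm

/-!
# Project NH: the order is nine
-/

set_option linter.all false
set_option autoImplicit false

namespace Pool.Agent.L7h70.NH

open Polynomial Pool.Agent.L7h89.NH
open scoped LinearAlgebra.Projectivization Matrix Classical

theorem card_pow3 (F : Type) [Field F] [Fintype F] (h3 : (3 : F) = 0) :
    ∃ n : ℕ, Fintype.card F = 3 ^ n := by
  obtain ⟨p, hp⟩ := CharP.exists F
  obtain ⟨n, hpp, hc⟩ := FiniteField.card F p
  have hd : p ∣ 3 := by
    rw [← CharP.cast_eq_zero_iff F p 3]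
    exact_mod_cast h3
  have : p = 3 := (Nat.prime_dvd_prime_iff_eq hpp Nat.prime_three).1 hd
  exact ⟨n, by rw [hc, this]⟩

theorem two_ne {F : Type} [Field F] (h3 : (3 : F) = 0) : (2 : F) ≠ 0 := by
  intro h
  have h1 : (1 : F) = 3 - 2 := by norm_num
  rw [h3, h] at h1
  simp at h1

theorem card_three {F : Type} [Field F] (h3 : (3 : F) = 0) (a b c : F) (hc : c ≠ 0) :
    ({(a, b), (a, b + c), (a, b - c)} : Finset (F × F)).card = 3 := by
  rw [Finset.card_eq_three]
  refine ⟨(a, b), (a, b + c), (a, b - c), ?_, ?_, ?_, rfl⟩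
  · intro h
    rw [Prod.mk.injEq] at h
    exact hc (by linear_combination -h.2)
  · intro h
    rw [Prod.mk.injEq] at h
    exact hc (by linear_combination h.2)
  · intro h
    rw [Prod.mk.injEq] at h
    exact hc (mul_left_cancel₀ (two_ne h3) (by linear_combination h.2))

theorem s_AFF (hAFD : S_AFD) (hAFE : S_AFE) : S_AFF := by
  intro F _ _ S B b c hSp
  obtain ⟨u, v, hA, h1, h2, h3⟩ := hAFE F S B b c hSp
  obtain ⟨h30, hcard, hB2, hBq, hfib, hfib2, hNT⟩ := hSp
  have hB4 : B.card ≤ 4 := by
    by_contra hc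
    push Not at hc
    exact hAFD F h30 B (Al S c) (fun a => u a / c a ^ 2) hc hA h1
  set G := (S.filter (fun s => s.1 ∉ B)).image Prod.fst with hG
  have hG2 : G.card ≤ 2 := by
    obtain ⟨a, ha⟩ := Finset.card_pos.1 (by omega : 0 < B.card)
    set p : F[X] := C (Al S c a * c a ^ 2) - C (u a) * (X - C a) - C (v a) * (X - C a) ^ 2 with hp
    have hp0 : p ≠ 0 := by
      intro h0
      have h5 := congrArg (Polynomial.eval a) h0
      have h6 : Al S c a * c a ^ 2 = 0 := by
        simpa [hp] using h5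
      rcases mul_eq_zero.1 h6 with h | h
      · exact hA a ha h
      · exact (hfib a ha).1 (pow_eq_zero_iff (two_ne_zero) |>.1 h)
    have hdeg : p.natDegree ≤ 2 := by
      rw [hp]
      compute_degree
    have hsub : G ⊆ p.roots.toFinset := by
      intro x hx
      rw [hG, Finset.mem_image] at hx
      obtain ⟨s, hs, rfl⟩ := hx
      rw [Finset.mem_filter] at hs
      rw [Multiset.mem_toFinset, Polynomial.mem_roots hp0, Polynomial.IsRoot.def]
      have := h3 a ha s hs.1 hs.2
      simpa [hp] using this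
    calc G.card ≤ p.roots.toFinset.card := Finset.card_le_card hsub
      _ ≤ Multiset.card p.roots := Multiset.toFinset_card_le _
      _ ≤ p.natDegree := Polynomial.card_roots' _
      _ ≤ 2 := hdeg
  have hdisj : Disjoint B G := by
    rw [Finset.disjoint_left]
    intro x hx hxG
    rw [hG, Finset.mem_image] at hxG
    obtain ⟨s, hs, rfl⟩ := hxG
    exact (Finset.mem_filter.1 hs).2 hx
  have hsum : S.card = ∑ x ∈ B, (fib S x).card + ∑ x ∈ G, (fib S x).card := by
    rw [← Finset.sum_union hdisj]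
    refine Finset.card_eq_sum_card_fiberwise ?_
    intro s hs
    rw [Finset.mem_coe, Finset.mem_union]
    by_cases hsB : s.1 ∈ B
    · exact Or.inl hsB
    · exact Or.inr (Finset.mem_image.2 ⟨s, Finset.mem_filter.2 ⟨hs, hsB⟩, rfl⟩)
  have hsB : ∑ x ∈ B, (fib S x).card = 3 * B.card := by
    rw [Finset.sum_congr rfl (fun x hx => (?_ : (fib S x).card = 3)), Finset.sum_const]
    · rw [smul_eq_mul, mul_comm]
    · rw [(hfib x hx).2]
      exact card_three h30 _ _ _ (hfib x hx).1
  have hGB : ∀ x ∈ G, x ∉ B := fun x hx hxB => Finset.disjoint_left.1 hdisj hxB hx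
  have hsG : ∑ x ∈ G, (fib S x).card ≤ 2 * G.card := by
    refine (Finset.sum_le_card_nsmul _ _ 2 fun x hx => hfib2 x (hGB x hx)).trans ?_
    rw [smul_eq_mul, mul_comm]
  obtain ⟨n, hn⟩ := card_pow3 F h30
  have hq1 : 9 ≤ Fintype.card F := by omega
  have hq2 : Fintype.card F ≤ 15 := by omega
  have hq : Fintype.card F = 9 := by
    rcases lt_trichotomy n 2 with h | h | h
    · interval_cases n <;> omega
    · rw [hn, h]; norm_num
    · exfalso
      have : 3 ^ 3 ≤ 3 ^ n := Nat.pow_le_pow_right (by norm_num) h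
      omega
  have hBc : B.card = 2 := by omega
  have hGc : G.card = 2 := by omega
  obtain ⟨a, a', haa, hBa⟩ := Finset.card_eq_two.1 hBc
  obtain ⟨g, g', hgg, hGg⟩ := Finset.card_eq_two.1 hGc
  have hg : g ∈ G := by rw [hGg]; simp
  have hg' : g' ∈ G := by rw [hGg]; simp
  have hs2 : (fib S g).card + (fib S g').card = 4 := by
    have : ∑ x ∈ G, (fib S x).card = (fib S g).card + (fib S g').card := by
      rw [hGg, Finset.sum_pair hgg]
    omega
  have e1 := hfib2 g (hGB g hg)
  have e2 := hfib2 g' (hGB g' hg')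
  exact ⟨hq, a, a', g, g', haa, hBa, hgg, hGB g hg, hGB g' hg', by omega, by omega⟩

end Pool.Agent.L7h70.NH
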