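import Pool.Agent.L7h89.NH.Stm

/-!
# Project NH: transfer to affine coordinates
-/

set_option linter.all false
set_option autoImplicit false

namespace Pool.Agent.L7h70.NH

open Polynomial Pool.Agent.L7h89.NH
open scoped LinearAlgebra.Projectivization Matrix Classical

theorem s_TRF (hBAS : S_BAS) (hCRD : S_CRD) (hAFH : S_AFH) (hCCD : S_CCD) (hCCA : S_CCA) :
    S_TRF := by
  intro F _ _ S R h3 hcard hRS hbad hR hdeg hq
  obtain ⟨hsym, hline, hpt, hcL, hcP, hcT, hmk⟩ := hBAS F
  have hbadmem : ∀ l, l ∈ bad S ↔ 3 ≤ deg S l := by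
    intro l
    simp [bad]
  have hmeet : ∀ l s, s ∈ meet S l ↔ s ∈ S ∧ On s l := by
    intro l s
    simp [meet]
  have hneR : ∀ s ∈ S, R ≠ s := fun s hs h => hRS (h ▸ hs)
  by_cases h1 : (bad S).card = 1
  · obtain ⟨M, hM⟩ := Finset.card_eq_one.1 h1
    have hMb : M ∈ bad S := by rw [hM]; simp
    have hd := hdeg M hMb
    have hne : (meet S M).Nonempty := by
      rw [← Finset.card_pos]
      unfold deg at hd
      omega
    obtain ⟨x, hx⟩ := hne
    have hx' := (hmeet M x).1 hx
    refine hCCA F S x hcard hx'.1 hbad ?_ hq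
    intro l hl
    rw [hM, Finset.mem_singleton] at hl
    rw [hl]
    exact hx'.2
  have h2 : 2 ≤ (bad S).card := by
    have := Finset.card_pos.2 hbad
    omega
  have hwt : wt S = (bad S).card := by
    unfold wt
    rw [Finset.card_eq_sum_ones, ← Finset.sum_subset (Finset.subset_univ (bad S))]
    · refine Finset.sum_congr rfl fun l hl => ?_
      rw [hdeg l hl]
      rfl
    · intro l _ hl
      have h4 : deg S l ≤ 2 := by
        by_contra hc
        exact hl ((hbadmem l).2 (by omega))
      have h5 : deg S l - 1 ≤ 1 := by omega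
      exact Nat.choose_eq_zero_of_lt (by omega)
  -- the line through `R` and `s`
  have hln0 : ∀ s : Pt F, ∃ l : Pt F, R ≠ s →
      (On R l ∧ On s l ∧ ∀ m, On R m → On s m → m = l) := by
    intro s
    by_cases h : R = s
    · exact ⟨s, fun h' => absurd h h'⟩
    · obtain ⟨l, hl⟩ := hline R s h
      exact ⟨l, fun _ => hl⟩
  choose ln hln using hln0
  set L : Finset (Pt F) := Finset.univ.filter (fun l : Pt F => On R l) with hL
  have hLmem : ∀ l, l ∈ L ↔ On R l := by
    intro l
    simp [hL]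
  have hsum : S.card = ∑ l ∈ L, deg S l := by
    rw [Finset.card_eq_sum_card_fiberwise (f := ln) (s := S) (t := L) (by
      intro s hs
      rw [Finset.mem_coe, hLmem]
      exact (hln s (hneR s hs)).1)]
    refine Finset.sum_congr rfl fun l hl => ?_
    unfold deg meet
    congr 1
    refine Finset.filter_congr fun s hs => ?_
    have h := hln s (hneR s hs)
    constructor
    · intro h'
      rw [← h']
      exact h.2.1
    · intro h'
      exact (h.2.2 l ((hLmem l).1 hl) h').symm
  obtain ⟨n, hRn, hn0⟩ : ∃ n, On R n ∧ deg S n = 0 := by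
    by_contra hcon
    push Not at hcon
    obtain ⟨M, hM⟩ := hbad
    have hML : M ∈ L := (hLmem M).2 (hR M hM)
    have hLc : L.card = Fintype.card F + 1 := hcL R
    have e1 : deg S M + ∑ l ∈ L.erase M, deg S l = ∑ l ∈ L, deg S l :=
      Finset.add_sum_erase L (fun l => deg S l) hML
    have e2 : (L.erase M).card * 1 ≤ ∑ l ∈ L.erase M, deg S l := by
      refine Finset.card_nsmul_le_sum _ _ 1 fun l hl => ?_
      have := hcon l ((hLmem l).1 (Finset.mem_of_mem_erase hl))
      omega
    have e3 : (L.erase M).card = L.card - 1 := Finset.card_erase_of_mem hML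
    have e4 := hdeg M hM
    omega
  have hSn : ∀ s ∈ S, ¬ On s n := by
    intro s hs hsn
    have : s ∈ meet S n := (hmeet n s).2 ⟨hs, hsn⟩
    have h5 := Finset.card_pos.2 ⟨s, this⟩
    unfold deg at hn0
    omega
  obtain ⟨phi, hinj, hcol, hver, hAP⟩ := hCRD F R n hRn
  -- points with the same first coordinate
  have hver' : ∀ x ∈ S, ∀ y ∈ S, (phi x).1 = (phi y).1 ↔ ln x = ln y := by
    intro x hx y hy
    rw [hver x y (hSn x hx) (hSn y hy)]
    have hX := hln x (hneR x hx)
    have hY := hln y (hneR y hy)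
    constructor
    · rintro ⟨l, h1, h2, h3⟩
      rw [← hX.2.2 l h1 h2, ← hY.2.2 l h1 h3]
    · intro h
      exact ⟨ln x, hX.1, hX.2.1, h ▸ hY.2.1⟩
  have honln : ∀ x ∈ S, ∀ l, On R l → (On x l ↔ ln x = l) := by
    intro x hx l hl
    have hX := hln x (hneR x hx)
    constructor
    · intro h
      exact (hX.2.2 l hl h).symm
    · intro h
      rw [← h]
      exact hX.2.1
  set S' : Finset (F × F) := S.image phi with hS'
  have hcS' : S'.card = Fintype.card F + 1 := by
    rw [hS', Finset.card_image_of_injOn, hcard]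
    intro x hx y hy hxy
    exact hinj x y (hSn x hx) (hSn y hy) hxy
  -- a point on each bad line
  have hpt0 : ∀ l : Pt F, ∃ x : Pt F, l ∈ bad S → x ∈ S ∧ On x l := by
    intro l
    by_cases h : l ∈ bad S
    · have hd := hdeg l h
      obtain ⟨x, hx⟩ : (meet S l).Nonempty := by
        rw [← Finset.card_pos]
        unfold deg at hd
        omega
      exact ⟨x, fun _ => (hmeet l x).1 hx⟩
    · exact ⟨l, fun h' => absurd h' h⟩
  choose pt hpts using hpt0
  set B : Finset F := (bad S).image (fun l => (phi (pt l)).1) with hB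
  have hlnpt : ∀ l ∈ bad S, ln (pt l) = l := fun l hl =>
    (honln (pt l) (hpts l hl).1 l (hR l hl)).1 (hpts l hl).2
  have hBc : B.card = (bad S).card := by
    rw [hB, Finset.card_image_of_injOn]
    intro l hl l' hl' h
    have h5 := (hver' _ (hpts l hl).1 _ (hpts l' hl').1).1 h
    rw [hlnpt l hl, hlnpt l' hl'] at h5
    exact h5
  have hfibmem : ∀ a, ∀ w : F × F, w ∈ fib S' a ↔ ∃ s ∈ S, phi s = w ∧ (phi s).1 = a := by
    intro a w
    unfold fib
    rw [Finset.mem_filter, hS', Finset.mem_image]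
    constructor
    · rintro ⟨⟨s, hs, rfl⟩, h⟩
      exact ⟨s, hs, rfl, h⟩
    · rintro ⟨s, hs, rfl, h⟩
      exact ⟨⟨s, hs, rfl⟩, h⟩
  have hfib : ∀ a : F, ∃ bc : F × F, a ∈ B → bc.2 ≠ 0 ∧
      fib S' a = {(a, bc.1), (a, bc.1 + bc.2), (a, bc.1 - bc.2)} := by
    intro a
    by_cases ha : a ∈ B
    swap
    · exact ⟨(0, 0), fun h => absurd h ha⟩
    rw [hB, Finset.mem_image] at ha
    obtain ⟨l, hl, rfl⟩ := ha
    have hd := hdeg l hl
    unfold deg at hd
    obtain ⟨x, y, z, hxy, hxz, hyz, hm⟩ := Finset.card_eq_three.1 hd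
    have hxm : x ∈ meet S l := by rw [hm]; simp
    have hym : y ∈ meet S l := by rw [hm]; simp
    have hzm : z ∈ meet S l := by rw [hm]; simp
    have hx := (hmeet l x).1 hxm
    have hy := (hmeet l y).1 hym
    have hz := (hmeet l z).1 hzm
    have hlR := hR l hl
    have hlam := hCCD F S R hcard hRS hR hdeg hq l hl x hxm y hym z hzm hxy hyz hxz
    have hap := hAP l x y z hlR hx.2 hy.2 hz.2 (hSn x hx.1) (hSn y hy.1) (hSn z hz.1) hlam
    have hfx : (phi x).1 = (phi (pt l)).1 := by
      rw [hver' x hx.1 _ (hpts l hl).1, hlnpt l hl, (honln x hx.1 l hlR).1 hx.2]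
    have hfy : (phi y).1 = (phi (pt l)).1 := by
      rw [hver' y hy.1 _ (hpts l hl).1, hlnpt l hl, (honln y hy.1 l hlR).1 hy.2]
    have hfz : (phi z).1 = (phi (pt l)).1 := by
      rw [hver' z hz.1 _ (hpts l hl).1, hlnpt l hl, (honln z hz.1 l hlR).1 hz.2]
    have ex : phi x = ((phi (pt l)).1, (phi x).2) := Prod.ext hfx rfl
    have ez : phi z = ((phi (pt l)).1, (phi x).2 + ((phi z).2 - (phi x).2)) :=
      Prod.ext hfz (by ring)
    have ey : phi y = ((phi (pt l)).1, (phi x).2 - ((phi z).2 - (phi x).2)) :=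
      Prod.ext hfy (by
        show (phi y).2 = (phi x).2 - ((phi z).2 - (phi x).2)
        rw [hap]
        ring)
    refine ⟨((phi x).2, (phi z).2 - (phi x).2), fun _ => ⟨?_, ?_⟩⟩
    · intro h0
      have h0' : (phi z).2 - (phi x).2 = 0 := h0
      refine hxz (hinj x z (hSn x hx.1) (hSn z hz.1) (Prod.ext ?_ ?_))
      · rw [hfx, hfz]
      · exact (sub_eq_zero.1 h0').symm
    · simp only []
      rw [← ex, ← ez, ← ey]
      ext w
      rw [hfibmem]
      simp only [Finset.mem_insert, Finset.mem_singleton]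
      constructor
      · rintro ⟨s, hs, rfl, h⟩
        have h5 := (hver' s hs _ (hpts l hl).1).1 h
        rw [hlnpt l hl] at h5
        have h6 : s ∈ meet S l := (hmeet l s).2 ⟨hs, (honln s hs l hlR).2 h5⟩
        rw [hm] at h6
        simp only [Finset.mem_insert, Finset.mem_singleton] at h6
        rcases h6 with rfl | rfl | rfl
        · exact Or.inl rfl
        · exact Or.inr (Or.inr rfl)
        · exact Or.inr (Or.inl rfl)
      · rintro (rfl | rfl | rfl)
        · exact ⟨x, hx.1, rfl, hfx⟩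
        · exact ⟨z, hz.1, rfl, hfz⟩
        · exact ⟨y, hy.1, rfl, hfy⟩
  choose bc hbc using hfib
  refine hAFH F S' B (fun a => (bc a).1) (fun a => (bc a).2)
    ⟨h3, hcS', by omega, by omega, hbc, ?_, ?_⟩
  · -- other vertical lines
    intro a ha
    by_contra hcon
    push Not at hcon
    obtain ⟨w, hw⟩ : (fib S' a).Nonempty := by
      rw [← Finset.card_pos]
      omega
    obtain ⟨s, hs, rfl, hsa⟩ := (hfibmem a w).1 hw
    have hs' := hln s (hneR s hs)
    have hsub : fib S' a ⊆ (meet S (ln s)).image phi := by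
      intro w' hw'
      obtain ⟨s', hs1, rfl, hsa'⟩ := (hfibmem a w').1 hw'
      refine Finset.mem_image.2 ⟨s', (hmeet _ _).2 ⟨hs1, ?_⟩, rfl⟩
      rw [honln s' hs1 _ hs'.1, ← hver' s' hs1 s hs, hsa, hsa']
    have hc1 := Finset.card_le_card hsub
    have hc2 : ((meet S (ln s)).image phi).card ≤ deg S (ln s) := Finset.card_image_le
    have hb : ln s ∈ bad S := (hbadmem _).2 (by omega)
    refine ha ?_
    rw [hB, Finset.mem_image]
    refine ⟨ln s, hb, ?_⟩
    rw [← hsa, hver' _ (hpts _ hb).1 _ hs, hlnpt _ hb]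
  · -- no other lines with three points
    intro x' hx y' hy z' hz hxy hzx hzy heq
    rw [hS', Finset.mem_image] at hx hy hz
    obtain ⟨x, hx, rfl⟩ := hx
    obtain ⟨y, hy, rfl⟩ := hy
    obtain ⟨z, hz, rfl⟩ := hz
    obtain ⟨l, hlx, hly, hlz⟩ := (hcol x y z (hSn x hx) (hSn y hy) (hSn z hz)).2 heq
    have hne1 : x ≠ y := fun h => hxy (by rw [h])
    have hne2 : z ≠ x := fun h => hzx (by rw [h])
    have hne3 : z ≠ y := fun h => hzy (by rw [h])
    have hsub : ({x, y, z} : Finset (Pt F)) ⊆ meet S l := by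
      intro w hw
      simp only [Finset.mem_insert, Finset.mem_singleton] at hw
      rw [hmeet]
      rcases hw with rfl | rfl | rfl
      · exact ⟨hx, hlx⟩
      · exact ⟨hy, hly⟩
      · exact ⟨hz, hlz⟩
    have hc3 : ({x, y, z} : Finset (Pt F)).card = 3 :=
      Finset.card_eq_three.2 ⟨x, y, z, hne1, hne2.symm, hne3.symm, rfl⟩
    have hb : l ∈ bad S := (hbadmem l).2 (by
      have := Finset.card_le_card hsub
      unfold deg
      omega)
    refine hxy ((hver' x hx y hy).2 ?_)
    rw [(honln x hx l (hR l hb)).1 hlx, (honln y hy l (hR l hb)).1 hly]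

end Pool.Agent.L7h70.NH
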